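import Pool.Agent.H449Z.Hodge.Final
import Pool.Agent.H916Y.Conv

/-!
# Tate characters whose part prime to `ℓ` is symmetric
-/

set_option autoImplicit false
set_option linter.unusedSectionVars false

namespace Pool.Agent.H449Z.Hodge

open Finset Pool.Agent.H916R2 Pool.Agent.H916Q

lemma order_two_smul {G : Type} [AddCommGroup G] [Finite G] {x : G} (hx : ¬ 2 ∣ addOrderOf x) :
    addOrderOf (2 • x) = addOrderOf x := by
  have h : (addOrderOf x).Coprime 2 := ((Nat.Prime.coprime_iff_not_dvd Nat.prime_two).mpr hx).symm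
  exact h.addOrderOf_nsmul

lemma supp_two {m : ℕ} [NeZero m] {K : Finset ℕ} (hK : 2 ∉ K) {a h : ZMod m} (hh0 : h ≠ 0)
    (hh : ∀ t : ZMod m, 2 • t = 0 ↔ t = 0 ∨ t = h) :
    Even (({a, a + h, -(2 * a), h} : Multiset (ZMod m)).countP (Supp K)) := by
  have h2h : 2 • h = 0 := (hh h).mpr (Or.inr rfl)
  have hodd : ∀ x : ZMod m, Supp K x → ¬ 2 ∣ addOrderOf x := by
    intro x hx h2
    apply hK
    rw [← hx]
    exact Nat.mem_primeFactors.mpr ⟨Nat.prime_two, h2, (addOrderOf_pos x).ne'⟩
  have hoddh : ∀ n : ℕ, ¬ 2 ∣ n → n • h = h := by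
    intro n hn
    obtain ⟨k, rfl⟩ : Odd n := Nat.odd_iff.mpr (by omega)
    rw [add_smul, one_smul, mul_comm, mul_smul, h2h, smul_zero, zero_add]
  have e2 : -(2 * a) = -(2 • a) := by rw [nsmul_eq_mul]; norm_num
  have e3 : 2 • (a + h) = 2 • a := by rw [smul_add, h2h, add_zero]
  have h1 : ¬ Supp K h := by
    intro hs
    have := hoddh _ (hodd h hs)
    rw [addOrderOf_nsmul_eq_zero] at this
    exact hh0 this.symm
  have h2 : Supp K a → Supp K (-(2 • a)) := by
    intro hs
    have := order_two_smul (hodd a hs)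
    unfold Supp at hs ⊢
    rw [addOrderOf_neg, this, hs]
  have h3 : Supp K (a + h) → Supp K (-(2 • a)) := by
    intro hs
    have := order_two_smul (hodd _ hs)
    unfold Supp at hs ⊢
    rw [addOrderOf_neg, ← e3, this, hs]
  have h4 : ¬ (Supp K a ∧ Supp K (a + h)) := by
    rintro ⟨ha, hb⟩
    have hn : ¬ 2 ∣ addOrderOf a * addOrderOf (a + h) := by
      intro hd
      rcases (Nat.Prime.dvd_mul Nat.prime_two).mp hd with hd | hd
      · exact hodd _ ha hd
      · exact hodd _ hb hd
    have h5 := hoddh _ hn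
    have h6 : (addOrderOf a * addOrderOf (a + h)) • (a + h) = 0 := by
      rw [mul_smul, addOrderOf_nsmul_eq_zero, smul_zero]
    rw [smul_add, h5, mul_comm, mul_smul, addOrderOf_nsmul_eq_zero, smul_zero, zero_add] at h6
    exact hh0 h6
  have h5 : Supp K (-(2 • a)) → Supp K a ∨ Supp K (a + h) := by
    intro hs
    have hn := hodd _ hs
    rw [addOrderOf_neg] at hn
    have h6 : 2 • (addOrderOf (2 • a) • a) = 0 := by
      rw [smul_comm, addOrderOf_nsmul_eq_zero]
    have key : ∀ x : ZMod m, 2 • x = 2 • a → addOrderOf (2 • a) • x = 0 → Supp K x := by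
      intro x hx hx0
      have h7 : ¬ 2 ∣ addOrderOf x := fun hd =>
        hn (hd.trans (addOrderOf_dvd_iff_nsmul_eq_zero.mpr hx0))
      have h8 := order_two_smul h7
      unfold Supp at hs ⊢
      rw [addOrderOf_neg, ← hx, h8] at hs
      exact hs
    rcases (hh _).mp h6 with h7 | h7
    · exact Or.inl (key a rfl h7)
    · refine Or.inr (key _ e3 ?_)
      rw [smul_add, h7, hoddh _ hn, ← two_smul ℕ, h2h]
  rw [e2]
  simp only [Multiset.insert_eq_cons, Multiset.countP_cons, ← Multiset.cons_zero,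
    Multiset.countP_zero, if_neg h1]
  by_cases ha : Supp K a
  · have hb : ¬ Supp K (a + h) := fun hb => h4 ⟨ha, hb⟩
    rw [if_pos ha, if_neg hb, if_pos (h2 ha)]
    decide
  · by_cases hb : Supp K (a + h)
    · rw [if_neg ha, if_pos hb, if_pos (h3 hb)]
      decide
    · rw [if_neg ha, if_neg hb, if_neg (fun h => (h5 h).elim ha hb)]
      decide

lemma zmod_two_tors {m : ℕ} [NeZero m] (hm : 2 ∣ m) (t : ZMod m) :
    2 • t = 0 ↔ t = 0 ∨ t = ((m / 2 : ℕ) : ZMod m) := by
  obtain ⟨d, hd⟩ := hm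
  have hd2 : m / 2 = d := by omega
  rw [hd2]
  constructor
  · intro ht
    rw [nsmul_eq_mul] at ht
    have hmv : m ∣ 2 * t.val := by
      rw [← ZMod.natCast_eq_zero_iff]; push_cast; rw [ZMod.natCast_zmod_val]; exact ht
    have hdv : d ∣ t.val := by
      have hmv' : 2 * d ∣ 2 * t.val := by rw [← hd]; exact hmv
      exact Nat.dvd_of_mul_dvd_mul_left (by norm_num) hmv'
    obtain ⟨j, hj⟩ := hdv
    have hlt : d * j < d * 2 := by rw [← hj, mul_comm d 2, ← hd]; exact ZMod.val_lt t
    have hj2 : j < 2 := Nat.lt_of_mul_lt_mul_left hlt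
    have ht' : t = ((t.val : ℕ) : ZMod m) := (ZMod.natCast_zmod_val t).symm
    rw [ht', hj]
    interval_cases j
    · left; simp
    · right; simp
  · rintro (rfl | rfl)
    · exact smul_zero _
    · rw [nsmul_eq_mul, ← Nat.cast_mul, ← hd, ZMod.natCast_self]

lemma even_supp_of_generated {m : ℕ} [NeZero m] {K : Finset ℕ} (hK : 2 ∉ K)
    {s : Multiset (ZMod m)} (h : Generated m (fun _ => False) s) : Even (s.countP (Supp K)) := by
  induction h with
  | ofBase s hs => exact hs.elim
  | pair a _ => exact H916Y.sEven_pair a K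
  | standard q hq hq2 hqm a ha =>
    exact H916Y.sEven_standard hq hqm ⟨hq.odd_of_ne_two hq2, a, ha, rfl⟩ K
  | standardTwo hm a _ =>
    refine supp_two hK ?_ (zmod_two_tors hm)
    rw [Ne, ZMod.natCast_eq_zero_iff]
    intro h
    have hmp := NeZero.pos m
    have h1 : 0 < m / 2 := Nat.div_pos (Nat.le_of_dvd hmp hm) (by norm_num)
    have := Nat.le_of_dvd h1 h
    omega
  | join s t _ _ ihs iht =>
    rw [Multiset.countP_add]
    exact ihs.add iht
  | cancel a s _ ih =>
    have h2 := H916Y.sEven_pair a K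
    have h3 : a ::ₘ -a ::ₘ s = {a, -a} + s := by
      rw [Multiset.insert_eq_cons, Multiset.cons_add, Multiset.singleton_add]
    rw [h3, Multiset.countP_add] at ih
    exact (Nat.even_add.mp ih).mp h2

lemma order_unit_mul {m : ℕ} {u : ZMod m} (hu : IsUnit u) (a : ZMod m) :
    addOrderOf (u * a) = addOrderOf a := by
  have h3 : ∀ k : ℕ, k • (u * a) = 0 ↔ k • a = 0 := by
    intro k
    rw [nsmul_eq_mul, nsmul_eq_mul, mul_left_comm]
    exact hu.mul_right_eq_zero
  apply Nat.dvd_antisymm
  · rw [addOrderOf_dvd_iff_nsmul_eq_zero, h3]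
    exact addOrderOf_nsmul_eq_zero _
  · rw [addOrderOf_dvd_iff_nsmul_eq_zero, ← h3]
    exact addOrderOf_nsmul_eq_zero _

theorem tate_parity {p ℓ m k : ℕ} [NeZero m] (hℓ : ℓ.Prime) (h2 : ℓ ≠ 2) (hpm : p.Coprime m)
    (hf : Odd (orderOf (p : ZMod m))) {s : Multiset (ZMod m)} (hs : H916T.IsTate p m s)
    (hne : s ≠ 0)
    (hsym : (s.map fun a => ℓ ^ k • a).map Neg.neg = s.map fun a => ℓ ^ k • a)
    {K : Finset ℕ} (hK : 2 ∉ K) : Even (s.countP (Supp K)) := by
  have hu : ∀ j : ℕ, IsUnit ((p : ZMod m) ^ j) := fun j => (H916T.isUnit_p hpm).pow j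
  let σ : ℕ → Multiset (ZMod m) := fun n => ∑ j ∈ range n, s.map fun a => (p : ZMod m) ^ j * a
  have hσ : ∀ n, σ (n + 1) = σ n + s.map fun a => (p : ZMod m) ^ n * a := fun n =>
    sum_range_succ _ n
  have h0 : ∀ n, (0 : ZMod m) ∉ σ n := by
    intro n
    induction n with
    | zero => simp [σ]
    | succ n ih =>
      rw [hσ, Multiset.mem_add, not_or]
      refine ⟨ih, fun h => ?_⟩
      obtain ⟨a, ha, ha0⟩ := Multiset.mem_map.mp h
      rw [(hu n).mul_right_eq_zero] at ha0
      exact hs.1 (ha0 ▸ ha)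
  have hcard : ∀ n, Multiset.card (σ n) = n * Multiset.card s := by
    intro n
    induction n with
    | zero => simp [σ]
    | succ n ih => rw [hσ, Multiset.card_add, ih, Multiset.card_map]; ring
  have hcount : ∀ n, (σ n).countP (Supp K) = n * s.countP (Supp K) := by
    intro n
    induction n with
    | zero => simp [σ]
    | succ n ih =>
      rw [hσ, Multiset.countP_add, ih, Multiset.countP_map, ← Multiset.countP_eq_card_filter,
        add_mul, one_mul]
      congr 1
      refine Multiset.countP_congr rfl fun a _ => ?_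
      unfold Supp
      rw [order_unit_mul (hu n)]
  have hsaw : ∀ (t : (ZMod m)ˣ) n, ((σ n).map fun a => saw ((t : ZMod m) * a)).sum =
      (s.map fun a => ∑ j ∈ range n, saw ((p : ZMod m) ^ j * ((t : ZMod m) * a))).sum := by
    intro t n
    induction n with
    | zero => simp [σ]
    | succ n ih =>
      rw [hσ, Multiset.map_add, Multiset.sum_add, ih, Multiset.map_map, ← Multiset.sum_map_add]
      congr 1
      refine Multiset.map_congr rfl fun a _ => ?_
      rw [sum_range_succ, Function.comp_apply, mul_left_comm]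
  have hsy : ∀ n, ((σ n).map fun a => ℓ ^ k • a).map Neg.neg = (σ n).map fun a => ℓ ^ k • a := by
    intro n
    induction n with
    | zero => simp [σ]
    | succ n ih =>
      rw [hσ, Multiset.map_add, Multiset.map_add, ih]
      congr 1
      have h1 := map_symm (AddMonoidHom.mulLeft ((p : ZMod m) ^ n)) hsym
      have h3 : ((s.map fun a => (p : ZMod m) ^ n * a).map fun a => ℓ ^ k • a) =
          (s.map fun a => ℓ ^ k • a).map (AddMonoidHom.mulLeft ((p : ZMod m) ^ n)) := by
        rw [Multiset.map_map, Multiset.map_map]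
        refine Multiset.map_congr rfl fun a _ => ?_
        simp only [Function.comp_apply, AddMonoidHom.coe_mulLeft, mul_smul_comm]
      rw [h3]
      exact h1
  have hH : IsHodge m (σ (orderOf (p : ZMod m))) := by
    refine isHodge_of_saw (h0 _) ?_ fun t => ?_
    · rw [hcard]
      exact hs.2.1.mul_left _
    · rw [hsaw]
      exact hs.W_sum hpm t
  have hne' : σ (orderOf (p : ZMod m)) ≠ 0 := by
    intro h
    have h1 := hcard (orderOf (p : ZMod m))
    rw [h, Multiset.card_zero] at h1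
    rcases Nat.mul_eq_zero.mp h1.symm with h3 | h3
    · exact hf.pos.ne' h3
    · exact hne (Multiset.card_eq_zero.mp h3)
  have h := even_supp_of_generated hK
    (generated_of_symm hℓ h2 (NeZero.pos m) hH hne' (hsy _))
  rw [hcount] at h
  exact (Nat.even_mul.mp h).resolve_left (Nat.not_even_iff_odd.mpr hf)

theorem tate_main {p ℓ m k : ℕ} (hp : p.Prime) (hℓ : ℓ.Prime) (h2 : ℓ ≠ 2) (hm : 0 < m)
    (hpm : p.Coprime m) (hf : Odd (orderOf (p : ZMod m))) {s : Multiset (ZMod m)}
    (hs : H916T.IsTate p m s) (hne : s ≠ 0)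
    (hsym : (s.map fun a => ℓ ^ k • a).map Neg.neg = s.map fun a => ℓ ^ k • a) :
    ∃ N : ℕ, 0 < N ∧ p.Coprime N ∧ ∀ M : ℕ, N * m = M →
      H916T.Generated M (H916Z.ZBase p M) (s.map (iota N : ZMod m → ZMod M)) := by
  have : NeZero m := ⟨hm.ne'⟩
  exact H916Y.parity_main hp hm hpm hs hne
    (link_parity hs.1 hs.2.1 fun S _ hS => tate_parity hℓ h2 hpm hf hs hne hsym hS)

end Pool.Agent.H449Z.Hodge
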